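import Pool.Agent.MP_ea150c_mp.H49.SpecV

/-! The evaluation on the orbit. -/

set_option linter.unusedSectionVars false

namespace Pool.Agent.MP_ea150c_mp.H5

open Pool.Agent.MP_ea150c_mp.H49

noncomputable section

section LocS
variable {S Λ : Type} [CommRing S] (L : Type) [Field L] [Algebra S L] (g : Λ → S) (J : Finset Λ)

theorem loc_alg (a : S) : algebraMap S L a ∈ Loc L g J := ⟨0, a, by simp⟩

theorem loc_inv {j : Λ} (hj : j ∈ J) (h : algebraMap S L (g j) ≠ 0) :
    (algebraMap S L (g j))⁻¹ ∈ Loc L g J := by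
  classical
  refine ⟨1, ∏ i ∈ J.erase j, g i, ?_⟩
  rw [← Finset.mul_prod_erase J g hj, map_mul, pow_one]
  field_simp

end LocS

section Fr
variable {K : Type} [Field K]

theorem sv_ne (i : Fin 4) : sv K i ≠ 0 := by
  unfold sv
  rw [Ne, IsFractionRing.to_map_eq_zero_iff]
  exact MvPolynomial.X_ne_zero i

theorem alg_C (c : K) : algebraMap (SR K) (LR K) (MvPolynomial.C c) = algebraMap K (LR K) c :=
  (IsScalarTower.algebraMap_apply K (SR K) (LR K) c).symm

theorem fr0 (Y : Fin 4 → K) : fr Y 0 = algebraMap K (LR K) (Y 0) * (sv K 0 * sv K 2) +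
    algebraMap K (LR K) (Y 1) * (sv K 0 * sv K 3) - algebraMap K (LR K) (Y 2) * (sv K 1 * sv K 2) +
    algebraMap K (LR K) (Y 3) * (sv K 1 * sv K 3) := by
  show algebraMap (SR K) (LR K) (gS Y) = _
  simp only [gS, map_add, map_sub, map_mul, alg_C, sv]

theorem fr0' (Y : Fin 4 → K) : fr Y 0 = algebraMap (SR K) (LR K) (gS Y) := rfl

theorem fr1 (Y : Fin 4 → K) : fr Y 1 =
    (sv K 0 * algebraMap K (LR K) (Y 1) + sv K 1 * algebraMap K (LR K) (Y 3)) / sv K 2 := rfl

theorem fr2 (Y : Fin 4 → K) : fr Y 2 =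
    (sv K 2 * algebraMap K (LR K) (Y 2) - sv K 3 * algebraMap K (LR K) (Y 3)) / sv K 0 := rfl

theorem fr3 (Y : Fin 4 → K) : fr Y 3 = algebraMap K (LR K) (Y 3) / (sv K 0 * sv K 2) := rfl

theorem fr_polar (Y Z : Fin 4 → K) :
    fr Y 0 * fr Z 3 + fr Y 3 * fr Z 0 + fr Y 1 * fr Z 2 + fr Y 2 * fr Z 1 =
      algebraMap K (LR K) (Y 0 * Z 3 + Y 3 * Z 0 + Y 1 * Z 2 + Y 2 * Z 1) := by
  have h0 := sv_ne (K := K) 0
  have h2 := sv_ne (K := K) 2
  simp only [fr0, fr1, fr2, fr3, map_add, map_mul]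
  field_simp
  ring

theorem fr_quad (Y : Fin 4 → K) :
    fr Y 0 * fr Y 3 + fr Y 1 * fr Y 2 = algebraMap K (LR K) (Y 0 * Y 3 + Y 1 * Y 2) := by
  have h0 := sv_ne (K := K) 0
  have h2 := sv_ne (K := K) 2
  simp only [fr0, fr1, fr2, fr3, map_add, map_mul]
  field_simp
  ring

/-- The coordinates in the moving frame are linear. -/
theorem fr_lin (r : Fin 4) : ∃ k : Fin 4 → LR K, ∀ Y : Fin 4 → K,
    fr Y r = ∑ q, k q * algebraMap K (LR K) (Y q) := by
  fin_cases r
  · exact ⟨![sv K 0 * sv K 2, sv K 0 * sv K 3, -(sv K 1 * sv K 2), sv K 1 * sv K 3], fun Y => by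
      simp [fr0, Fin.sum_univ_four]; ring⟩
  · exact ⟨![0, sv K 0 / sv K 2, 0, sv K 1 / sv K 2], fun Y => by
      simp [fr1, Fin.sum_univ_four]; ring⟩
  · exact ⟨![0, 0, sv K 2 / sv K 0, -(sv K 3 / sv K 0)], fun Y => by
      simp [fr2, Fin.sum_univ_four]; ring⟩
  · exact ⟨![0, 0, 0, 1 / (sv K 0 * sv K 2)], fun Y => by
      simp [fr3, Fin.sum_univ_four]; ring⟩

theorem shift_mem (R : Subring (LR K)) (hs : ∀ i, sv K i ∈ R)
    (hc : ∀ c : K, algebraMap K (LR K) c ∈ R) (Y Z : Fin 4 → K) (hZ : fr Z 0 ≠ 0)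
    (hi : (fr Z 0)⁻¹ ∈ R) :
    fr Y 0 ∈ R ∧ fr Y 1 - fr Z 1 * (fr Z 0)⁻¹ * fr Y 0 ∈ R ∧
      fr Y 2 - fr Z 2 * (fr Z 0)⁻¹ * fr Y 0 ∈ R ∧
      fr Y 3 + fr Z 2 * (fr Z 0)⁻¹ * fr Y 1 + fr Z 1 * (fr Z 0)⁻¹ * fr Y 2 -
        fr Z 2 * (fr Z 0)⁻¹ * (fr Z 1 * (fr Z 0)⁻¹) * fr Y 0 ∈ R := by
  have h0 := sv_ne (K := K) 0
  have h2 := sv_ne (K := K) 2
  have hz := fr0 Z
  set w := (fr Z 0)⁻¹ with hw
  have hw1 : fr Z 0 * w = 1 := mul_inv_cancel₀ hZ
  rw [hz] at hw1
  have hs0 := hs 0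
  have hs1 := hs 1
  have hs2 := hs 2
  have hs3 := hs 3
  have hc0 := hc (Y 0)
  have hc1 := hc (Y 1)
  have hc2 := hc (Y 2)
  have hc3 := hc (Y 3)
  have hd0 := hc (Z 0)
  have hd1 := hc (Z 1)
  have hd2 := hc (Z 2)
  have hd3 := hc (Z 3)
  simp only [fr0, fr1, fr2, fr3]
  generalize algebraMap K (LR K) (Y 0) = c at *
  generalize algebraMap K (LR K) (Y 1) = a at *
  generalize algebraMap K (LR K) (Y 2) = d at *
  generalize algebraMap K (LR K) (Y 3) = b at *
  generalize algebraMap K (LR K) (Z 0) = c' at *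
  generalize algebraMap K (LR K) (Z 1) = a' at *
  generalize algebraMap K (LR K) (Z 2) = d' at *
  generalize algebraMap K (LR K) (Z 3) = b' at *
  generalize sv K 0 = s1 at *
  generalize sv K 1 = s2 at *
  generalize sv K 2 = t1 at *
  generalize sv K 3 = t2 at *
  refine ⟨by aesop, ?_, ?_, ?_⟩
  · have e : (s1 * a + s2 * b) / t1 - (s1 * a' + s2 * b') / t1 * w *
        (c * (s1 * t1) + a * (s1 * t2) - d * (s2 * t1) + b * (s2 * t2)) =
        ((s1 * a + s2 * b) * (s1 * c' - s2 * d') - (s1 * a' + s2 * b') * (s1 * c - s2 * d)) * w := by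
      field_simp
      linear_combination (-(s1 * a + s2 * b)) * hw1
    rw [e]
    aesop
  · have e : (t1 * d - t2 * b) / s1 - (t1 * d' - t2 * b') / s1 * w *
        (c * (s1 * t1) + a * (s1 * t2) - d * (s2 * t1) + b * (s2 * t2)) =
        ((t1 * d - t2 * b) * (t1 * c' + t2 * a') - (t1 * d' - t2 * b') * (t1 * c + t2 * a)) * w := by
      field_simp
      linear_combination (-(t1 * d - t2 * b)) * hw1
    rw [e]
    aesop
  · have e : b / (s1 * t1) + (t1 * d' - t2 * b') / s1 * w * ((s1 * a + s2 * b) / t1) +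
        (s1 * a' + s2 * b') / t1 * w * ((t1 * d - t2 * b) / s1) -
        (t1 * d' - t2 * b') / s1 * w * ((s1 * a' + s2 * b') / t1 * w) *
          (c * (s1 * t1) + a * (s1 * t2) - d * (s2 * t1) + b * (s2 * t2)) =
        (-(c * (t1 * d' - t2 * b') * (s1 * a' + s2 * b')) +
          a * (t1 * d' - t2 * b') * (s1 * c' - s2 * d') +
          d * (t1 * c' + t2 * a') * (s1 * a' + s2 * b') +
          b * (t1 * c' + t2 * a') * (s1 * c' - s2 * d')) * w * w := by
      field_simp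
      linear_combination (-(b * (1 + (c' * (s1 * t1) + a' * (s1 * t2) - d' * (s2 * t1) +
        b' * (s2 * t2)) * w) + w * ((t1 * d' - t2 * b') * (s1 * a + s2 * b) +
        (s1 * a' + s2 * b') * (t1 * d - t2 * b)))) * hw1
    rw [e]
    aesop

end Fr

section Stress
variable {I E : Type} [LinearOrder I] [Fintype I] [Fintype E] [DecidableEq E] {K : Type} [Field K]
  {G : PG I E} {P : Pt I K}

/-- The edge `e` joins `u` and `v`. -/
def Jo (G : PG I E) (e : E) (u v : I) : Prop :=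
  (G.src e = some u ∧ G.tgt e = some v) ∨ (G.src e = some v ∧ G.tgt e = some u)

open Classical in
theorem edge_sum (hG : G.Good) (hP : P.Good G) {L : Type} [CommRing L] (φ : K →+* L)
    (F : I → I → L) :
    ∑ e, φ (P.tO (G.src e) (G.tgt e)) * ∑ u, ∑ v, (if Jo G e u v then F u v else 0) =
      ∑ u, ∑ v, φ (P.t u v) * F u v := by
  simp only [Finset.mul_sum]
  rw [Finset.sum_comm]
  refine Finset.sum_congr rfl fun u _ => ?_
  rw [Finset.sum_comm]
  refine Finset.sum_congr rfl fun v _ => ?_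
  have h1 : ∀ e, φ (P.tO (G.src e) (G.tgt e)) * (if Jo G e u v then F u v else 0) =
      if Jo G e u v then φ (P.t u v) * F u v else 0 := by
    intro e
    split_ifs with h
    · rcases h with ⟨h1, h2⟩ | ⟨h1, h2⟩
      · rw [h1, h2]; rfl
      · rw [h1, h2, hP.symm u v]; rfl
    · simp
  simp only [h1]
  by_cases ht : P.t u v = 0
  · simp [ht]
  · obtain ⟨e0, he0⟩ := hP.adj u v ht
    have key : ∀ e, Jo G e u v → s(G.src e, G.tgt e) = s(some u, some v) := by
      rintro e (⟨h1, h2⟩ | ⟨h1, h2⟩)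
      · rw [h1, h2]
      · rw [h1, h2, Sym2.eq_swap]
    rw [Finset.sum_eq_single e0, if_pos (show Jo G e0 u v from he0)]
    · intro e _ he
      exact if_neg fun h => he (hG.simple _ _ ((key e h).trans (key e0 he0).symm))
    · simp

open Classical in
theorem jo_sum (hG : G.Good) {L : Type} [CommRing L] (F : I → I → L) {e : E} {a b : I}
    (ha : G.src e = some a) (hb : G.tgt e = some b) :
    ∑ u, ∑ v, (if Jo G e u v then F u v else 0) = F a b + F b a := by
  have hab : a ≠ b := fun h => hG.noloop e (by rw [ha, hb, h])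
  have h1 : ∀ u v, (if Jo G e u v then F u v else 0) =
      (if v = b then (if u = a then F u v else 0) else 0) +
        (if v = a then (if u = b then F u v else 0) else 0) := by
    intro u v
    have : Jo G e u v ↔ (u = a ∧ v = b) ∨ (v = a ∧ u = b) := by
      simp [Jo, ha, hb, eq_comm]
    rw [if_congr this rfl rfl]
    by_cases h1 : u = a <;> by_cases h2 : v = b <;> by_cases h3 : v = a <;> by_cases h4 : u = b <;>
      simp_all
  simp [h1, Finset.sum_add_distrib]

theorem sum_mu {L : Type} [CommRing L] (φ : K →+* L) (c : Io G Finset.univ → L) :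
    ∑ i, φ (P.mu G i) * c i = ∑ v, φ (P.ρ v) * c (Sum.inl ⟨v, Finset.mem_univ v⟩) +
      ∑ e, φ (P.tO (G.src e) (G.tgt e)) * c (Sum.inr (Sum.inl e)) := by
  rw [Fintype.sum_sum_type, Fintype.sum_sum_type]
  simp only [Pt.mu, Sum.elim_inl, Sum.elim_inr, map_zero, zero_mul, Finset.sum_const_zero,
    add_zero]
  congr 1
  exact Fintype.sum_equiv (Equiv.subtypeUnivEquiv fun v => Finset.mem_univ v) _ _ fun _ => rfl

open MvPolynomial in
/-- Half of the bilinear form of an edge. -/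
def hP (u v : I) : MvPolynomial (Var I (Ex0 I)) ℤ :=
  alP ∅ u * beP ∅ v + X (Sum.inl (u, 0)) * X (Sum.inl (v, 3)) +
    X (Sum.inl (u, 1)) * X (Sum.inl (v, 2))

theorem sum_f (hG : G.Good) (hp : P.Good G) {L : Type} [CommRing L] (φ : K →+* L)
    (D : MvPolynomial (Var I (Ex0 I)) ℤ →+ L) :
    ∑ i, φ (P.mu G i) * D (G.M0.f i) =
      ∑ v, φ (P.ρ v) * D (hP v v) + ∑ u, ∑ v, φ (P.t u v) * D (hP u v) := by
  classical
  rw [sum_mu, ← edge_sum hG hp φ fun u v => D (hP u v)]
  congr 1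
  refine Finset.sum_congr rfl fun e _ => ?_
  rcases ha : G.src e with _ | a
  · simp [Pt.tO]
  rcases hb : G.tgt e with _ | b
  · simp [Pt.tO]
  rw [jo_sum hG _ ha hb, ← map_add]
  congr 2
  simp only [PG.model, Sum.elim_inr, Sum.elim_inl, ha, hb, edgeP, hP, xxP]
  ring

/-- Families of values killed by the stress. -/
def Kil (P : Pt I K) {L : Type} [CommRing L] (φ : K →+* L) (a : I → L) : Prop :=
  ∀ v, φ (P.ρ v) * a v + ∑ u, φ (P.t u v) * a u = 0

section Kil
variable {L : Type} [CommRing L] {φ : K →+* L} {a b : I → L}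

theorem Kil.add (ha : Kil P φ a) (hb : Kil P φ b) : Kil P φ fun v => a v + b v := fun v => by
  have h1 := ha v
  have h2 := hb v
  simp only [mul_add, Finset.sum_add_distrib]
  linear_combination h1 + h2

theorem Kil.mul (k : L) (ha : Kil P φ a) : Kil P φ fun v => k * a v := fun v => by
  have h1 := ha v
  simp only [mul_left_comm _ k, ← Finset.mul_sum]
  linear_combination k * h1

theorem Kil.sub (ha : Kil P φ a) (hb : Kil P φ b) : Kil P φ fun v => a v - b v := by
  have := ha.add (hb.mul (-1))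
  simpa [sub_eq_add_neg] using this

theorem Kil.of {a : I → K} (ha : ∀ v, P.ρ v * a v + ∑ u, P.t u v * a u = 0) :
    Kil P φ fun v => φ (a v) := fun v => by
  simpa [map_sum] using congrArg φ (ha v)

theorem Kil.left (ha : Kil P φ a) (g : I → L) :
    ∑ v, φ (P.ρ v) * (a v * g v) + ∑ u, ∑ v, φ (P.t u v) * (a u * g v) = 0 := by
  rw [Finset.sum_comm, ← Finset.sum_add_distrib]
  refine Finset.sum_eq_zero fun v _ => ?_
  have h1 := ha v
  simp only [← mul_assoc, ← Finset.sum_mul]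
  linear_combination g v * h1

theorem Kil.right (hp : P.Good G) (ha : Kil P φ a) (g : I → L) :
    ∑ v, φ (P.ρ v) * (g v * a v) + ∑ u, ∑ v, φ (P.t u v) * (g u * a v) = 0 := by
  have h := ha.left g
  rw [Finset.sum_comm] at h
  rw [← h]
  congr 1
  · exact Finset.sum_congr rfl fun u _ => by ring
  · exact Finset.sum_congr rfl fun u _ => Finset.sum_congr rfl fun v _ => by
      rw [hp.symm u v]; ring

end Kil

theorem stress (hG : G.Good) (hp : P.Good G) {L : Type} [CommRing L] (φ : K →+* L)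
    (x : MvPolynomial (Var I (Ex0 I)) ℤ → L) (D : MvPolynomial (Var I (Ex0 I)) ℤ →+ L)
    (hD : ∀ f g, D (f * g) = D f * x g + x f * D g)
    (ha : Kil P φ fun v => x (alP ∅ v)) (hb : Kil P φ fun v => x (beP ∅ v))
    (hx : ∀ r, Kil P φ fun v => x (MvPolynomial.X (Sum.inl (v, r)))) :
    ∑ i, φ (P.mu G i) * D (G.M0.f i) = 0 := by
  rw [sum_f hG hp]
  have h1 := ha.left fun v => D (beP ∅ v)
  have h2 := hb.right hp fun v => D (alP ∅ v)
  have h3 := (hx 0).left fun v => D (MvPolynomial.X (Sum.inl (v, 3)))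
  have h4 := (hx 3).right hp fun v => D (MvPolynomial.X (Sum.inl (v, 0)))
  have h5 := (hx 1).left fun v => D (MvPolynomial.X (Sum.inl (v, 2)))
  have h6 := (hx 2).right hp fun v => D (MvPolynomial.X (Sum.inl (v, 1)))
  simp only [hP, map_add, hD, mul_add, Finset.sum_add_distrib]
  linear_combination h1 + h2 + h3 + h4 + h5 + h6

theorem kil_fr (hp : P.Good G) (lam : K) (r : Fin 4) :
    Kil P (algebraMap K (LR K)) fun v => fr (P.X1 lam v) r := by
  obtain ⟨k, hk⟩ := fr_lin (K := K) r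
  have h : ∀ q, Kil P (algebraMap K (LR K)) fun v => algebraMap K (LR K) (P.X1 lam v q) := by
    intro q
    have h1 := (Kil.of (φ := algebraMap K (LR K)) fun v => hp.eqX v q).sub
      ((Kil.of hp.eqa).mul (algebraMap K (LR K) (lam * (![0, 0, 0, 1] : Fin 4 → K) q)))
    have e : (fun v => algebraMap K (LR K) (P.X1 lam v q)) = fun v =>
        algebraMap K (LR K) (P.X v q) - algebraMap K (LR K) (lam * (![0, 0, 0, 1] : Fin 4 → K) q) *
          algebraMap K (LR K) (P.al v) := by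
      funext v
      rw [← map_mul, ← map_sub]
      congr 1
      simp only [Pt.X1, Pi.sub_apply, Pi.smul_apply, smul_eq_mul]
      ring
    rw [e]
    exact h1
  simp only [hk, Fin.sum_univ_four]
  exact ((((h 0).mul _).add ((h 1).mul _)).add ((h 2).mul _)).add ((h 3).mul _)

theorem kil_shift (hp : P.Good G) (lam : K) (n n' : LR K) (r : Fin 4) :
    Kil P (algebraMap K (LR K)) fun v => gshift n n' (P.y lam) (Sum.inl (v, r)) := by
  have h := kil_fr hp lam
  fin_cases r
  · exact h 0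
  · exact (h 1).sub ((h 0).mul _)
  · exact (h 2).sub ((h 0).mul _)
  · exact (((h 3).add ((h 1).mul _)).add ((h 2).mul _)).sub ((h 0).mul _)

theorem kil_be (hp : P.Good G) (lam : K) :
    Kil P (algebraMap K (LR K)) fun v => algebraMap K (LR K) (P.be v + lam * P.X v 0) := by
  simp only [map_add, map_mul]
  exact (Kil.of hp.eqb).add ((Kil.of fun v => hp.eqX v 0).mul _)

theorem X1_ne (hp : P.Good G) {lam : K} (hl : lam ≠ 0) (v : I) : P.X1 lam v ≠ 0 := by
  intro h
  by_cases hv : v = P.w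
  · have := congrFun h 3
    simp [Pt.X1, hv, hp.Xw, hp.alw, hl] at this
  · obtain ⟨r, hr, h0⟩ := hp.gen v hv
    have := congrFun h r
    fin_cases r <;> simp_all [Pt.X1]

end Stress

section Ev
variable {I E : Type} [LinearOrder I] [Fintype I] [Fintype E] [DecidableEq E] {K : Type} [Field K]
  {G : PG I E} {P : Pt I K} {p : ℕ} [Fact p.Prime] [CharP K p] {lam : K}
  {ev : Zr ℤ_[p] I (Ex0 I) →+* LR K}

theorem ofPoly_X (Λ : Type) [CommRing Λ] (y : Var I (Ex0 I)) :
    ofPoly torV Λ (MvPolynomial.X y) = tX torV Λ y := by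
  simp [ofPoly]

theorem alP_eq (v : I) :
    alP ∅ v = MvPolynomial.X (Sum.inr (Sum.inl ⟨v, Finset.notMem_empty v⟩)) :=
  dif_pos (Finset.notMem_empty v)

theorem ev_smul (he : P.IsEv p lam ev) (c : ℤ_[p]) (z : Zr ℤ_[p] I (Ex0 I)) :
    ev (c • z) = algebraMap K (LR K) (zk p K c) * ev z := by
  rw [Algebra.smul_def, map_mul, he.1]

theorem ev_tXi (he : P.IsEv p lam ev) (v : I) :
    ev (tXi torV ℤ_[p] (Sum.inl (v, 0))) = (fr (P.X1 lam v) 0)⁻¹ := by
  have h := congrArg ev (tX_mul_tXi (Λ := ℤ_[p]) (torV : Var I (Ex0 I) → Bool) (Sum.inl (v, 0))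
    (by simp [torV]))
  rw [map_mul, map_one, he.2] at h
  exact eq_inv_of_mul_eq_one_right h

theorem ev_nZ (he : P.IsEv p lam ev) (j : I) :
    ev (nZ ℤ_[p] _ j) = fr (P.X1 lam j) 2 * (fr (P.X1 lam j) 0)⁻¹ := by
  rw [nZ, map_mul, ev_tXi he, he.2]; rfl

theorem ev_nZ' (he : P.IsEv p lam ev) (j : I) :
    ev (nZ' ℤ_[p] _ j) = fr (P.X1 lam j) 1 * (fr (P.X1 lam j) 0)⁻¹ := by
  rw [nZ', map_mul, ev_tXi he, he.2]; rfl

theorem ev_sj (he : P.IsEv p lam ev) (j : I) (z : Var I (Ex0 I)) :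
    ev (sj ℤ_[p] _ j (tX torV ℤ_[p] z)) =
      gshift (ev (nZ ℤ_[p] _ j)) (ev (nZ' ℤ_[p] _ j)) (P.y lam) z := by
  rw [sj_tX, map_gshift, show (fun z => ev (tX torV ℤ_[p] z)) = P.y lam from funext he.2]

theorem ev_loc (he : P.IsEv p lam ev) (hne : ∀ v, fr (P.X1 lam v) 0 ≠ 0) {J : Finset I} {j : I}
    (hj : j ∈ J) {z : Zr ℤ_[p] I (Ex0 I)}
    (hz : ∀ u : Mon torV, z.coeff u ≠ 0 → ∀ v, v ∉ J → 0 ≤ u.1 (Sum.inl (v, 0))) :
    ev (sj ℤ_[p] _ j z) ∈ Loc (LR K) (fun v => gS (P.X1 lam v)) J := by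
  have hc : ∀ c : K, algebraMap K (LR K) c ∈ Loc (LR K) (fun v => gS (P.X1 lam v)) J :=
    fun c => by rw [← alg_C]; exact loc_alg _ _ _ _
  have hi : ∀ v ∈ J, (fr (P.X1 lam v) 0)⁻¹ ∈ Loc (LR K) (fun v => gS (P.X1 lam v)) J :=
    fun v hv => loc_inv (LR K) (fun v => gS (P.X1 lam v)) J hv (hne v)
  have hX : ∀ y, ev (sj ℤ_[p] _ j (tX torV ℤ_[p] y)) ∈
      Loc (LR K) (fun v => gS (P.X1 lam v)) J := by
    intro y
    rw [ev_sj he, ev_nZ he, ev_nZ' he]
    rcases y with ⟨v, r⟩ | v | v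
    · obtain ⟨h0, h1, h2, h3⟩ := shift_mem (Loc (LR K) (fun v => gS (P.X1 lam v)) J)
        (fun i => loc_alg (LR K) (fun v => gS (P.X1 lam v)) J (MvPolynomial.X i)) hc (P.X1 lam v)
        (P.X1 lam j) (hne j) (hi j hj)
      fin_cases r
      · exact h0
      · exact h1
      · exact h2
      · exact h3
    · exact hc _
    · exact hc _
  rw [← AddMonoidAlgebra.sum_coeff_single z, Finsupp.sum, map_sum, map_sum]
  refine Subring.sum_mem _ fun u hu => ?_
  have hu' := hz u (Finsupp.mem_support_iff.1 hu)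
  have e : (AddMonoidAlgebra.single u (z.coeff u) : Zr ℤ_[p] I (Ex0 I)) =
      z.coeff u • AddMonoidAlgebra.single u 1 := by
    rw [AddMonoidAlgebra.smul_single, smul_eq_mul, mul_one]
  rw [e, map_smul, ev_smul he, mono_eq_prod, map_prod, map_prod]
  refine Subring.mul_mem _ (hc _) (Subring.prod_mem _ fun y _ => ?_)
  rw [map_mul, map_mul, map_pow, map_pow, map_pow, map_pow]
  refine Subring.mul_mem _ (Subring.pow_mem _ (hX y) _) ?_
  by_cases h0 : 0 ≤ u.1 y
  · rw [show (-(u.1 y)).toNat = 0 by omega, pow_zero]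
    exact Subring.one_mem _
  · have ht : torV y = true := by
      by_contra ht
      exact h0 (u.2 y (by simpa using ht))
    rcases y with ⟨v, r⟩ | t
    · have hr : r = 0 := by simpa [torV] using ht
      subst hr
      have hv : v ∈ J := by
        by_contra hv
        exact h0 (hu' v hv)
      rw [sj_tXi, ev_tXi he]
      exact Subring.pow_mem _ (hi v hv) _
    · simp [torV] at ht

theorem mu_f (hp : P.Good G) (he : P.IsEv p lam ev) (i : Io G Finset.univ) :
    algebraMap K (LR K) (P.mu G i) * ev (ofPoly torV ℤ_[p] (G.M0.f i)) = 0 := by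
  have hx : ∀ y, ev (ofPoly torV ℤ_[p] (MvPolynomial.X y)) = P.y lam y := fun y => by
    rw [ofPoly_X, he.2]
  rcases i with v | e | v
  · by_cases h : P.ρ v.1 = 0
    · simp [Pt.mu, h]
    refine mul_eq_zero_of_right _ ?_
    simp only [PG.model, Sum.elim_inl, qP, alP_eq, beP, map_add, map_mul, hx, Pt.y, Sum.elim_inr]
    rw [add_assoc, fr_quad]
    simp only [← map_mul, ← map_add, map_eq_zero]
    simp only [Pt.X1, Pi.sub_apply, Pi.smul_apply, smul_eq_mul, Matrix.cons_val]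
    linear_combination hp.onQ _ h
  · rcases ha : G.src e with _ | a
    · simp [Pt.mu, Pt.tO, ha]
    rcases hb : G.tgt e with _ | b
    · simp [Pt.mu, Pt.tO, ha, hb]
    by_cases h : P.t a b = 0
    · simp [Pt.mu, Pt.tO, ha, hb, h]
    refine mul_eq_zero_of_right _ ?_
    simp only [PG.model, Sum.elim_inl, ha, hb, edgeP, xxP, alP_eq, beP, map_add, map_mul, hx, Pt.y,
      Sum.elim_inr, fr_polar]
    simp only [← map_mul, ← map_add, map_eq_zero]
    simp only [Pt.X1, Pi.sub_apply, Pi.smul_apply, smul_eq_mul, Matrix.cons_val]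
    linear_combination hp.onB _ _ h
  · simp [Pt.mu]

theorem stress_sj (hG : G.Good) (hp : P.Good G) (he : P.IsEv p lam ev) (j : I)
    (D : MvPolynomial (Var I (Ex0 I)) ℤ →+ LR K)
    (hD : ∀ f g, D (f * g) = D f * ev (sj ℤ_[p] _ j (ofPoly torV ℤ_[p] g)) +
      ev (sj ℤ_[p] _ j (ofPoly torV ℤ_[p] f)) * D g) :
    ∑ i, algebraMap K (LR K) (P.mu G i) * D (G.M0.f i) = 0 := by
  refine stress hG hp _ (fun f => ev (sj ℤ_[p] _ j (ofPoly torV ℤ_[p] f))) D hD ?_ ?_ fun r => ?_
  · simp only [alP_eq, ofPoly_X, ev_sj he]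
    exact Kil.of hp.eqa
  · simp only [beP, ofPoly_X, ev_sj he]
    exact kil_be hp lam
  · simp only [ofPoly_X, ev_sj he]
    exact kil_shift hp lam _ _ r

theorem sj_rho (Λ : Type) [CommRing Λ] (j : I) (z : Zr Λ I (Ex0 I)) :
    sj Λ _ j (inS Λ _ j (rhoZ Λ _ j z)) = sj Λ _ j z := by
  have h := tX_mul_tXi (Λ := Λ) (torV : Var I (Ex0 I) → Bool) (Sum.inl (j, 0)) (by simp [torV])
  have : (sj Λ (Ex0 I) j).comp ((inS Λ _ j).comp (rhoZ Λ _ j)) = sj Λ _ j := by
    apply tor_ext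
    intro y
    rw [AlgHom.comp_apply, AlgHom.comp_apply, rhoZ, tlift_tX]
    split_ifs with hy
    · rw [inS, tlift_tX]
    · rw [map_zero, map_zero, sj_tX]
      rcases not_and_or.1 hy with h1 | h1
      · rw [not_not.1 h1]
        simp only [gshift, Fin.reduceEq, if_true, if_false, nZ']
        linear_combination tX torV Λ (Sum.inl (j, 1)) * h
      · rw [not_not.1 h1]
        simp only [gshift, Fin.reduceEq, if_true, if_false, nZ]
        linear_combination tX torV Λ (Sum.inl (j, 2)) * h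
  exact DFunLike.congr_fun this z

theorem ev_ab (he : P.IsEv p lam ev) (u v : I) : ev (abA ℤ_[p] u v).1 =
    algebraMap K (LR K) (P.al u * (P.be v + lam * P.X v 0)) := by
  show ev (sj ℤ_[p] _ u (ofPoly torV ℤ_[p] (alP ∅ u * beP ∅ v))) = _
  rw [alP_eq, beP, map_mul, map_mul, map_mul, ofPoly_X, ofPoly_X, ev_sj he, ev_sj he, map_mul]
  rfl

end Ev

theorem ve0 (s1 : S1) (vnt : VNT) : VE := by
  intro I E _ _ _ _ G hG h p _ _ K _ _ P hp lam hl
  have hne : ∀ v, fr (P.X1 lam v) 0 ≠ 0 := fun v => (vnt K I).1 _ (X1_ne hp hl v)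
  refine ⟨?_, fun ev he => ⟨fun J ω a ⟨j, hj⟩ ha => ?_, ?_, fun j y => ?_, fun J => ?_,
    fun κ => ?_, fun m s => ?_⟩⟩
  · let _ : Algebra ℤ_[p] (LR K) := ((algebraMap K (LR K)).comp (zk p K)).toAlgebra
    have hy : ∀ z, torV z = true → P.y lam z * (P.y lam z)⁻¹ = 1 := by
      rintro (⟨v, r⟩ | t) ht
      · have hr : r = 0 := by simpa [torV] using ht
        subst hr
        exact mul_inv_cancel₀ (hne v)
      · simp [torV] at ht
    exact ⟨(tlift (Λ := ℤ_[p]) torV _ _ hy).toRingHom,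
      fun c => (tlift (Λ := ℤ_[p]) torV _ _ hy).commutes c, fun z => tlift_tX _ _ _ _ _⟩
  · rw [← (mem_Ainv _ _).1 a.2 j]
    exact ev_loc he hne hj fun u hu => (ha u hu).1
  · rintro u ⟨η, β, e, hu⟩
    have h0 : zk p K (p : ℤ_[p]) = 0 := by rw [map_natCast, CharP.cast_eq_zero]
    have h1 : ∀ a : Σ j : I, Sl (Ex0 I) j, ∑ i, algebraMap K (LR K) (P.mu G i) *
        ev ((G.M0.frame p h).d a.1 a.2 (G.M0.fA ℤ_[p] h i)).1 = 0 := by
      rintro ⟨j, y⟩
      refine stress_sj hG hp he j (AddMonoidHom.mk' (fun f => ev (sj ℤ_[p] _ j (inS ℤ_[p] _ j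
        (pd _ ℤ_[p] y (rhoZ ℤ_[p] _ j (ofPoly torV ℤ_[p] f)))))) fun f g => by
          simp only [map_add]) fun f g => ?_
      simp only [AddMonoidHom.mk'_apply, map_mul, (s1 _ _ _).1, map_add, sj_rho]
    have h2 : ∀ i, algebraMap K (LR K) (P.mu G i) * ev (u i).1 =
        ∑ a : Σ j : I, Sl (Ex0 I) j, ev (η a).1 * (algebraMap K (LR K) (P.mu G i) *
          ev ((G.M0.frame p h).d a.1 a.2 (G.M0.fA ℤ_[p] h i)).1) := by
      intro i
      have h3 := mu_f hp he i
      rw [hu i]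
      simp only [Subalgebra.coe_add, AddSubmonoidClass.coe_finsetSum, Subalgebra.coe_mul,
        Subalgebra.coe_smul, map_add, map_sum, map_mul, ev_smul he, h0, map_zero, zero_mul,
        add_zero, mul_add, Finset.mul_sum]
      rw [← mul_assoc, show (G.M0.fA ℤ_[p] h i).1 = ofPoly torV ℤ_[p] (G.M0.f i) from rfl, h3,
        zero_mul, add_zero]
      exact Finset.sum_congr rfl fun a _ => by ring
    simp only [Pt.sig, h2]
    rw [Finset.sum_comm]
    exact Finset.sum_eq_zero fun a _ => by rw [← Finset.mul_sum, h1, mul_zero]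
  · refine stress_sj hG hp he j (AddMonoidHom.mk' (fun f => ev (sj ℤ_[p] _ j
      (ofPoly torV ℤ_[p] (MvPolynomial.pderiv y f)))) fun f g => by simp only [map_add])
      fun f g => ?_
    simp only [AddMonoidHom.mk'_apply, Derivation.leibniz, smul_eq_mul, map_add, map_mul]
    ring
  · unfold cc ccL
    split_ifs with hJ
    · show ev (sj ℤ_[p] _ _ _ * sj ℤ_[p] _ _ _) = _
      rw [sj_nZ, sj_nZ', map_mul, map_sub, map_sub, ev_nZ he, ev_nZ he, ev_nZ' he, ev_nZ' he]
      simp only [div_eq_mul_inv]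
    · exact map_zero ev
  · show ev (sj ℤ_[p] _ _ (ofPoly torV ℤ_[p] (XP P.w κ 0))) = fr (P.XK lam κ) 0
    unfold XP Pt.XK
    rcases ofLex κ with j | j
    · rw [Sum.elim_inl, ofPoly_X, ev_sj he]; rfl
    · simp only [Sum.elim_inr]
      split_ifs with hj
      · rw [ofPoly_X, ev_sj he]; rfl
      · simp only [alP_eq, map_sub, map_mul, ofPoly_X, ev_sj he]
        simp only [gshift, if_true, Pt.y, Sum.elim_inl, Sum.elim_inr, fr0, Pt.X1, hp.Xw,
          Pi.sub_apply, Pi.smul_apply, Pi.zero_apply, smul_eq_mul, Matrix.cons_val, map_sub,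
          map_mul, map_zero, map_one]
        ring
  · classical
    have h2 : ∀ i, algebraMap K (LR K) (P.mu G i) * ev (G.aI h p m s i).1 =
        algebraMap K (LR K) (P.mu G i) * ∑ u, ∑ v, if G.Pair i u v then
          algebraMap K (LR K) (zk p K (s u v) * P.al u * (P.be v + lam * P.X v 0)) else 0 := by
      intro i
      have h3 := mu_f hp he i
      simp only [PG.aI, Subalgebra.coe_add, AddSubmonoidClass.coe_finsetSum, Subalgebra.coe_smul,
        map_add ev, map_sum, ev_smul he, mul_add]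
      rw [mul_left_comm, show (G.M0.fA ℤ_[p] h i).1 = ofPoly torV ℤ_[p] (G.M0.f i) from rfl, h3,
        mul_zero, zero_add]
      congr 1
      refine Finset.sum_congr rfl fun u _ => Finset.sum_congr rfl fun v _ => ?_
      split_ifs
      · rw [Subalgebra.coe_smul, ev_smul he, ev_ab he, ← map_mul]
        congr 1
        ring
      · exact map_zero ev
    simp only [Pt.sig, h2]
    rw [sum_mu, Pt.gam, map_add, map_sum, map_sum]
    congr 1
    · refine Finset.sum_congr rfl fun w _ => ?_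
      have : ∀ u v, G.Pair (Sum.inl ⟨w, Finset.mem_univ w⟩) u v ↔ v = u ∧ u = w := by
        intro u v
        simp [PG.Pair, eq_comm, and_comm]
      simp only [this, ite_and, Finset.sum_ite_eq', Finset.mem_univ, if_true, ← map_mul]
      congr 1
      ring
    · have : ∀ e u v, G.Pair (Sum.inr (Sum.inl e)) u v ↔ Jo G e u v := by
        intro e u v
        simp [PG.Pair, Jo]
      simp only [this]
      rw [edge_sum hG hp]
      simp only [map_sum, ← map_mul, mul_assoc]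

theorem ve (_ : G1) (s1 : S1) (_ : CX) (_ : CC) (vnt : VNT) : VE := ve0 s1 vnt

end

end Pool.Agent.MP_ea150c_mp.H5
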